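import Mathlib

set_option autoImplicit false

open Cardinal Set Topology Filter Ordinal

universe u

namespace Pool.Agent.Lib.Helper82.CpDiscretely

/-- `C_p(X)`: the set of continuous functions `X → ℝ` with the topology of pointwise convergence,
that is the subspace topology inherited from the product `X → ℝ`. -/
abbrev Cp (X : Type u) [TopologicalSpace X] : Type u := {f : X → ℝ // Continuous f}

/-- A subset `R` of a space `Z` is *right separated* if it has a well-ordering for which every
initial segment `{y ∈ R : y < x}`, `x ∈ R`, is open in the subspace `R`. -/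
def RightSeparated {Z : Type u} [TopologicalSpace Z] (R : Set Z) : Prop :=
  ∃ r : R → R → Prop, IsWellOrder R r ∧ ∀ x : R, IsOpen {y : R | r y x}

/-- Neighbourhoods witnessing right separation. -/
lemma RightSeparated.exists_nhds {Z : Type u} [TopologicalSpace Z] {R : Set Z}
    {r : R → R → Prop} [IsWellOrder R r] (hr : ∀ x : R, IsOpen {y : R | r y x}) (x : R) :
    ∃ U : Set Z, IsOpen U ∧ (x : Z) ∈ U ∧ ∀ y : R, r x y → (y : Z) ∉ U := by
  classical
  by_cases hmax : ∃ z : R, r x z
  · -- let `z` be the least element above `x`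
    obtain ⟨z, hz, hmin⟩ := (IsWellFounded.wf (r := r)).has_min {z : R | r x z} hmax
    have hopen := hr z
    rw [isOpen_induced_iff] at hopen
    obtain ⟨U, hU, hUeq⟩ := hopen
    refine ⟨U, hU, ?_, ?_⟩
    · have : x ∈ Subtype.val ⁻¹' U := by
        rw [hUeq]
        exact hz
      exact this
    · intro y hxy hyU
      have h1 : y ∈ Subtype.val ⁻¹' U := hyU
      rw [hUeq] at h1
      exact hmin y hxy h1
  · refine ⟨univ, isOpen_univ, mem_univ _, ?_⟩
    intro y hxy
    exact absurd ⟨y, hxy⟩ hmax

/-- The strictly increasing continuous maps `φ n : ℝ → ℝ`, `φ n t = (2 + arctan t) / 16 ^ n`. -/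
noncomputable def phi (n : ℕ) (t : ℝ) : ℝ := (2 + Real.arctan t) / 16 ^ n

lemma phi_continuous (n : ℕ) : Continuous (phi n) := by
  unfold phi
  fun_prop

lemma phi_strictMono (n : ℕ) : StrictMono (phi n) := by
  intro s t hst
  unfold phi
  have h1 : Real.arctan s < Real.arctan t := Real.arctan_strictMono hst
  have h2 : (0 : ℝ) < 16 ^ n := by positivity
  gcongr

lemma phi_inducing (n : ℕ) : IsInducing (phi n) := by
  have h : OrdConnected (range (phi n)) :=
    (isPreconnected_range (phi_continuous n)).ordConnected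
  exact ((phi_strictMono n).isEmbedding_of_ordConnected h).isInducing

lemma arctan_bounds (t : ℝ) : -(1.6 : ℝ) < Real.arctan t ∧ Real.arctan t < 1.6 := by
  have h1 := Real.neg_pi_div_two_lt_arctan t
  have h2 := Real.arctan_lt_pi_div_two t
  have h3 := Real.pi_lt_d2
  constructor <;> linarith

/-- The open interval containing the values of `φ n` and no value of `φ m`, `m ≠ n`. -/
def box (n : ℕ) : Set ℝ := Ioo (0.4 / 16 ^ n) (3.6 / 16 ^ n)

lemma phi_mem_box (n : ℕ) (t : ℝ) : phi n t ∈ box n := by
  obtain ⟨h1, h2⟩ := arctan_bounds t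
  have h3 : (0 : ℝ) < 16 ^ n := by positivity
  unfold phi box
  constructor
  · apply div_lt_div_of_pos_right _ h3
    linarith
  · apply div_lt_div_of_pos_right _ h3
    linarith

lemma box_disjoint {m n : ℕ} (h : m < n) {t : ℝ} (ht : t ∈ box m) : t ∉ box n := by
  intro hn
  have h1 : 0.4 / 16 ^ m < t := ht.1
  have h2 : t < 3.6 / 16 ^ n := hn.2
  have h3 : (3.6 : ℝ) / 16 ^ n ≤ 3.6 / 16 ^ (m + 1) := by
    apply div_le_div_of_nonneg_left (by norm_num) (by positivity)
    exact pow_le_pow_right₀ (by norm_num) h
  have h4 : (3.6 : ℝ) / 16 ^ (m + 1) < 0.4 / 16 ^ m := by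
    rw [pow_succ, div_lt_div_iff₀ (by positivity) (by positivity)]
    have : (0 : ℝ) < 16 ^ m := by positivity
    nlinarith
  linarith

lemma box_unique {m n : ℕ} {t : ℝ} (hm : t ∈ box m) (hn : t ∈ box n) : m = n := by
  rcases lt_trichotomy m n with h | h | h
  · exact absurd hn (box_disjoint h hm)
  · exact h
  · exact absurd hm (box_disjoint h hn)

lemma phi_tendsto (t : ℝ) : Tendsto (fun n => phi n t) atTop (𝓝 0) := by
  unfold phi
  have h : Tendsto (fun n : ℕ => (2 + Real.arctan t) * ((1 / 16 : ℝ) ^ n)) atTop (𝓝 ((2 + Real.arctan t) * 0)) :=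
    (tendsto_pow_atTop_nhds_zero_of_lt_one (by norm_num) (by norm_num)).const_mul _
  simpa [div_eq_mul_inv] using h

variable {X : Type u} [TopologicalSpace X]

/-- Composition with `φ n` as a self-map of `C_p(X)`. -/
noncomputable def Phi (n : ℕ) (g : Cp X) : Cp X :=
  ⟨fun x => phi n (g.1 x), (phi_continuous n).comp g.2⟩

lemma Phi_inducing (n : ℕ) : IsInducing (Phi (X := X) n) := by
  have h1 : IsInducing (Pi.map (fun (_ : X) => phi n)) := IsInducing.piMap fun _ => phi_inducing n
  have h2 : IsInducing ((Subtype.val : Cp X → X → ℝ) ∘ Phi n) :=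
    h1.comp IsInducing.subtypeVal
  exact (IsInducing.subtypeVal.of_comp_iff).1 h2

/-- The zero function. -/
def zeroFn : Cp X := ⟨fun _ => 0, continuous_const⟩

lemma Phi_tendsto (g : Cp X) : Tendsto (fun n => Phi n g) atTop (𝓝 zeroFn) := by
  rw [tendsto_subtype_rng, tendsto_pi_nhds]
  intro x
  exact phi_tendsto (g.1 x)

/-- **Main lemma.**  Let `Z` be a space such that every discrete subset of `Z × C_p(X)` has
Lindelöf closure, and let `R` be a right separated subset of `C_p(X)`.  Then every `A ⊆ Z` with
`#A ≤ #R` has Lindelöf closure in `Z`. -/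
theorem isLindelof_closure {Z : Type u} [TopologicalSpace Z]
    (hD : ∀ D : Set (Z × Cp X), DiscreteTopology D → IsLindelof (closure D))
    {R : Set (Cp X)} (hR : RightSeparated R) {A : Set Z} (hA : #A ≤ #R) :
    IsLindelof (closure A) := by
  classical
  -- it is enough to have a discrete set whose closure contains `A × {0}`
  have reduce : ∀ D : Set (Z × Cp X), DiscreteTopology D →
      (∀ a ∈ A, (a, (zeroFn : Cp X)) ∈ closure D) → IsLindelof (closure A) := by
    intro D hDd hAD
    have hLin := hD D hDd
    let j : Z → Z × Cp X := fun z => (z, zeroFn)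
    have hj : Continuous j := continuous_id.prodMk continuous_const
    have hsub : closure A ⊆ j ⁻¹' closure D :=
      closure_minimal hAD (isClosed_closure.preimage hj)
    have himg : IsClosed (closure A ×ˢ ({zeroFn} : Set (Cp X))) :=
      isClosed_closure.prod isClosed_singleton
    have hsub2 : closure A ×ˢ ({zeroFn} : Set (Cp X)) ⊆ closure D := by
      rintro ⟨z, w⟩ ⟨hz, hw⟩
      have hw' : w = zeroFn := hw
      subst hw'
      exact hsub hz
    have h3 := (hLin.of_isClosed_subset himg hsub2).image continuous_fst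
    have h4 : Prod.fst '' (closure A ×ˢ ({zeroFn} : Set (Cp X))) = closure A := by
      ext z
      constructor
      · rintro ⟨⟨a, b⟩, ⟨ha, _⟩, rfl⟩
        exact ha
      · intro hz
        exact ⟨(z, zeroFn), ⟨hz, rfl⟩, rfl⟩
    rwa [h4] at h3
  -- the case of an empty space `X`
  rcases isEmpty_or_nonempty X with hX | ⟨⟨x₀⟩⟩
  · have hsub : Subsingleton (Cp X) := ⟨fun f g => Subtype.ext (funext fun x => hX.elim x)⟩
    have hR1 : #R ≤ 1 := by
      rw [Cardinal.le_one_iff_subsingleton]
      infer_instance
    have hA1 : Subsingleton A := Cardinal.le_one_iff_subsingleton.1 (hA.trans hR1)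
    refine reduce ((fun a : Z => (a, (zeroFn : Cp X))) '' A) ?_ ?_
    · have : Subsingleton ((fun a : Z => (a, (zeroFn : Cp X))) '' A) := by
        rw [Set.subsingleton_coe]
        exact ((Set.subsingleton_coe A).1 hA1).image _
      infer_instance
    · intro a ha
      exact subset_closure ⟨a, ha, rfl⟩
  obtain ⟨r, hwo, hr⟩ := hR
  -- well-order `A` in its initial order type
  obtain ⟨s, hs, hord⟩ := exists_ord_eq A
  have hle : type s ≤ type r := by
    rw [← hord]
    exact (ord_le_ord.2 hA).trans (ord_le_type r)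
  obtain ⟨e⟩ := type_le_iff'.1 hle
  choose U hUo hUm hUn using RightSeparated.exists_nhds (Z := Cp X) (R := R) (r := r) hr
  -- the left separated dense subset of `A`
  let L : Set A := {a | (a : Z) ∉ closure {z : Z | ∃ b : A, s b a ∧ (b : Z) = z}}
  have hLdense : ∀ a : A, (a : Z) ∈ closure ((fun a : A => (a : Z)) '' L) := by
    intro a
    induction a using (IsWellFounded.wf (r := s)).induction with
    | _ a ih =>
      by_cases haL : a ∈ L
      · exact subset_closure ⟨a, haL, rfl⟩
      · have h1 : (a : Z) ∈ closure {z : Z | ∃ b : A, s b a ∧ (b : Z) = z} := by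
          by_contra hcon
          exact haL hcon
        refine closure_minimal ?_ isClosed_closure h1
        rintro z ⟨b, hb, rfl⟩
        exact ih b hb
  -- the discrete set
  let D : Set (Z × Cp X) :=
    {p | ∃ (a : A) (n : ℕ), a ∈ L ∧ p = ((a : Z), Phi n (e a : Cp X))}
  have hDdisc : DiscreteTopology D := by
    rw [discreteTopology_subtype_iff']
    rintro p ⟨a, n, haL, rfl⟩
    -- the open set isolating the point
    obtain ⟨V, hVo, hVe⟩ := (Phi_inducing (X := X) n).isOpen_iff.1 (hUo (e a))
    let W : Set (Cp X) := {h | h.1 x₀ ∈ box n}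
    have hWo : IsOpen W := by
      have hc : Continuous fun h : Cp X => h.1 x₀ :=
        (continuous_apply x₀).comp continuous_subtype_val
      exact isOpen_Ioo.preimage hc
    let F : Set Z := (closure {z : Z | ∃ b : A, s b a ∧ (b : Z) = z})ᶜ
    have hFo : IsOpen F := isClosed_closure.isOpen_compl
    refine ⟨F ×ˢ (V ∩ W), hFo.prod (hVo.inter hWo), ?_⟩
    ext q
    constructor
    · rintro ⟨⟨hq1, hq2, hq3⟩, b, m, hbL, rfl⟩
      simp only at hq1 hq2 hq3
      have hmn : m = n := box_unique (phi_mem_box m _) hq3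
      subst hmn
      have h2 : (e b : Cp X) ∈ U (e a) := by
        rw [← hVe]
        exact hq2
      rcases trichotomous_of s a b with h | h | h
      · exact absurd h2 (hUn (e a) (e b) (e.map_rel_iff.2 h))
      · subst h
        rfl
      · refine absurd ?_ hq1
        exact subset_closure (show (b : Z) ∈ {z : Z | ∃ b : A, s b a ∧ (b : Z) = z} from
          ⟨b, h, rfl⟩)
    · rintro rfl
      refine ⟨⟨haL, ?_, phi_mem_box n _⟩, a, n, haL, rfl⟩
      have : (e a : Cp X) ∈ Phi n ⁻¹' V := by
        rw [hVe]
        exact hUm (e a)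
      exact this
  -- the closure contains `A × {0}`
  refine reduce D hDdisc ?_
  have hj : Continuous (fun z : Z => (z, (zeroFn : Cp X))) := continuous_id.prodMk continuous_const
  have hmem : ∀ a : A, a ∈ L → ((a : Z), (zeroFn : Cp X)) ∈ closure D := by
    intro a haL
    have ht : Tendsto (fun n : ℕ => ((a : Z), Phi n (e a : Cp X))) atTop
        (𝓝 ((a : Z), zeroFn)) := tendsto_const_nhds.prodMk_nhds (Phi_tendsto _)
    have hmemD : ∀ n : ℕ, ((a : Z), Phi n (e a : Cp X)) ∈ D := fun n => ⟨a, n, haL, rfl⟩
    exact mem_closure_of_tendsto ht (Eventually.of_forall hmemD)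
  intro a ha
  have h1 := hLdense ⟨a, ha⟩
  have hc : IsClosed ((fun z : Z => (z, (zeroFn : Cp X))) ⁻¹' closure D) :=
    isClosed_closure.preimage hj
  refine closure_minimal ?_ hc h1
  rintro _ ⟨b, hb, rfl⟩
  exact hmem b hb

end Pool.Agent.Lib.Helper82.CpDiscretely
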