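import Mathlib
import Pool.Agent.Lib.Helper82.CpDiscretely

set_option autoImplicit false

open Cardinal Set Topology Filter Ordinal

universe u

namespace Pool.Agent.Lib.Helper82.CpDiscretely

/-- `cof([κ]^{≤ω}, ⊆) ≤ μ`: in a set of cardinality `κ` there is a family of at most `μ` countable
subsets such that every countable subset is contained in a member of the family. -/
def CofCountableLE (κ μ : Cardinal.{u}) : Prop :=
  ∃ C : Set (Set κ.out), (∀ c ∈ C, c.Countable) ∧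
    (∀ c : Set κ.out, c.Countable → ∃ d ∈ C, c ⊆ d) ∧ #C ≤ μ

/-- A cover of `Z` by open sets without countable subcover. -/
def BadCover {Z : Type u} [TopologicalSpace Z] (𝒰 : Set (Set Z)) : Prop :=
  (∀ v ∈ 𝒰, IsOpen v) ∧ (∀ z : Z, ∃ v ∈ 𝒰, z ∈ v) ∧
    ∀ 𝒱 : Set (Set Z), 𝒱 ⊆ 𝒰 → 𝒱.Countable → ∃ z : Z, ∀ v ∈ 𝒱, z ∉ v

variable {Z : Type u} [TopologicalSpace Z]

lemma exists_badCover (h : ¬ LindelofSpace Z) : ∃ 𝒰 : Set (Set Z), BadCover 𝒰 := by
  by_contra hcon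
  push Not at hcon
  apply h
  rw [← isLindelof_univ_iff]
  apply isLindelof_of_countable_subcover
  intro ι U hU hcov
  by_contra hno
  push Not at hno
  refine hcon (range U) ⟨?_, ?_, ?_⟩
  · rintro _ ⟨i, rfl⟩
    exact hU i
  · intro z
    obtain ⟨i, hi⟩ := mem_iUnion.1 (hcov (mem_univ z))
    exact ⟨U i, ⟨i, rfl⟩, hi⟩
  · intro 𝒱 h𝒱 hc
    rcases isEmpty_or_nonempty ι with hι | hι
    · obtain ⟨z, -, -⟩ := Set.not_subset.1 (hno ∅ countable_empty)
      exact ⟨z, fun v hv => by obtain ⟨i, -⟩ := h𝒱 hv; exact (hι.false i).elim⟩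
    have h𝒱' : ∀ v : Set Z, ∃ i : ι, v ∈ 𝒱 → U i = v := by
      intro v
      by_cases hv : v ∈ 𝒱
      · obtain ⟨i, hi⟩ := h𝒱 hv
        exact ⟨i, fun _ => hi⟩
      · exact ⟨hι.some, fun h => absurd h hv⟩
    choose f hf using h𝒱'
    have h1 := hno (f '' 𝒱) (hc.image f)
    obtain ⟨z, -, hz⟩ := Set.not_subset.1 h1
    refine ⟨z, fun v hv hzv => hz ?_⟩
    rw [mem_iUnion₂]
    exact ⟨f v, ⟨v, hv, rfl⟩, by rw [hf v hv]; exact hzv⟩

/-- A subcover of a bad cover is bad. -/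
lemma BadCover.subset {𝒰 𝒱 : Set (Set Z)} (h : BadCover 𝒰) (hs : 𝒱 ⊆ 𝒰)
    (hc : ∀ z : Z, ∃ v ∈ 𝒱, z ∈ v) : BadCover 𝒱 :=
  ⟨fun v hv => h.1 v (hs hv), hc, fun 𝒲 hW hWc => h.2.2 𝒲 (hW.trans hs) hWc⟩

/-- From a bad cover of minimal cardinality we get a right separated set of that cardinality. -/
lemma exists_rightSeparated {𝒰 : Set (Set Z)} (h : BadCover 𝒰)
    (hmin : ∀ 𝒱 : Set (Set Z), BadCover 𝒱 → #𝒰 ≤ #𝒱) :
    ∃ R : Set Z, RightSeparated R ∧ #R = #𝒰 := by
  classical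
  let s : 𝒰 → 𝒰 → Prop := WellOrderingRel
  have : IsWellOrder 𝒰 s := WellOrderingRel.isWellOrder
  -- members containing a point not in the earlier members
  let I : Set 𝒰 := {v | ∃ z ∈ (v : Set Z), ∀ w : 𝒰, s w v → z ∉ (w : Set Z)}
  have hcov : ∀ z : Z, ∃ v : 𝒰, v ∈ I ∧ z ∈ (v : Set Z) := by
    intro z
    obtain ⟨v₀, hv₀, hz₀⟩ := h.2.1 z
    obtain ⟨v, hv, hvmin⟩ := (IsWellFounded.wf (r := s)).has_min {v : 𝒰 | z ∈ (v : Set Z)}
      ⟨⟨v₀, hv₀⟩, hz₀⟩
    exact ⟨v, ⟨z, hv, fun w hw hzw => hvmin w hzw hw⟩, hv⟩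
  have hI : #I = #𝒰 := by
    apply le_antisymm (mk_set_le I)
    have hbad : BadCover ((fun v : 𝒰 => (v : Set Z)) '' I) := by
      apply h.subset
      · rintro _ ⟨v, -, rfl⟩
        exact v.2
      · intro z
        obtain ⟨v, hv, hz⟩ := hcov z
        exact ⟨v, ⟨v, hv, rfl⟩, hz⟩
    exact (hmin _ hbad).trans mk_image_le
  -- choose the points
  have hpt : ∀ v : I, ∃ z ∈ ((v : 𝒰) : Set Z), ∀ w : 𝒰, s w v → z ∉ (w : Set Z) := fun v => v.2
  choose p hp hpn using hpt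
  have key : ∀ v w : I, p w ∈ ((v : 𝒰) : Set Z) → ¬ s (v : 𝒰) (w : 𝒰) := by
    intro v w hvw hs
    exact hpn w v hs hvw
  have hinj : Function.Injective p := by
    intro v w hvw
    have h1 : ¬ s (v : 𝒰) (w : 𝒰) := key v w (by rw [← hvw]; exact hp v)
    have h2 : ¬ s (w : 𝒰) (v : 𝒰) := key w v (by rw [hvw]; exact hp w)
    rcases trichotomous_of s (v : 𝒰) (w : 𝒰) with h3 | h3 | h3
    · exact absurd h3 h1
    · exact Subtype.ext h3
    · exact absurd h3 h2
  refine ⟨range p, ?_, ?_⟩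
  · -- transport the order
    let q : range p → I := fun x => (Equiv.ofInjective p hinj).symm x
    have hq : ∀ x : range p, p (q x) = x := by
      intro x
      exact Equiv.apply_ofInjective_symm hinj x
    have hqi : Function.Injective q := (Equiv.ofInjective p hinj).symm.injective
    let r : range p → range p → Prop := fun x y => s (q x : 𝒰) (q y : 𝒰)
    let emb : r ↪r s :=
      { toFun := fun x => (q x : 𝒰)
        inj' := fun x y hxy => hqi (Subtype.ext hxy)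
        map_rel_iff' := by
          intro a b
          rfl }
    refine ⟨r, emb.isWellOrder, ?_⟩
    intro x
    have heq : {y : range p | r y x} = Subtype.val ⁻¹' (⋃ v : {v : 𝒰 // s v (q x : 𝒰)},
        ((v : 𝒰) : Set Z)) := by
      ext y
      constructor
      · intro hy
        refine mem_iUnion.2 ⟨⟨(q y : 𝒰), hy⟩, ?_⟩
        rw [← hq y]
        exact hp (q y)
      · intro hy
        obtain ⟨⟨v, hv⟩, hyv⟩ := mem_iUnion.1 hy
        have h1 : ¬ s v (q y : 𝒰) := by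
          intro h2
          apply hpn (q y) v h2
          rw [hq y]
          exact hyv
        change s (q y : 𝒰) (q x : 𝒰)
        rcases trichotomous_of s v (q y : 𝒰) with h3 | h3 | h3
        · exact absurd h3 h1
        · rw [← h3]
          exact hv
        · exact _root_.trans h3 hv
    rw [heq]
    exact (isOpen_iUnion fun v => h.1 _ v.1.2).preimage continuous_subtype_val
  · rw [mk_range_eq p hinj, hI]

/-- The abstract criterion. -/
theorem lindelof_criterion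
    (hP : ∀ R A : Set Z, RightSeparated R → #A ≤ #R → IsLindelof (closure A))
    (hR : ∀ κ : Cardinal.{u}, ℵ₀ < κ → κ.ord.cof = ℵ₀ →
      (∃ R : Set Z, RightSeparated R ∧ #R = κ) →
      ∃ R : Set Z, RightSeparated R ∧
        ((∃ A : Set Z, Dense A ∧ #A ≤ #R) ∨ CofCountableLE κ #R)) :
    LindelofSpace Z := by
  classical
  by_contra hnot
  obtain ⟨𝒰₀, h𝒰₀⟩ := exists_badCover hnot
  -- a bad cover of minimal cardinality
  let S : Set Cardinal.{u} := {κ | ∃ 𝒰 : Set (Set Z), BadCover 𝒰 ∧ #𝒰 = κ}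
  have hS : S.Nonempty := ⟨#𝒰₀, 𝒰₀, h𝒰₀, rfl⟩
  obtain ⟨𝒰, hbad, hcard⟩ := csInf_mem hS
  set κ : Cardinal.{u} := sInf S with hκ
  have hmin : ∀ 𝒱 : Set (Set Z), BadCover 𝒱 → #𝒰 ≤ #𝒱 := by
    intro 𝒱 h𝒱
    rw [hcard]
    exact csInf_le' ⟨𝒱, h𝒱, rfl⟩
  -- the cardinal is uncountable
  have hunc : ℵ₀ < κ := by
    by_contra hle
    push Not at hle
    have hc : 𝒰.Countable := by
      rw [← le_aleph0_iff_set_countable, hcard]
      exact hle
    obtain ⟨z, hz⟩ := hbad.2.2 𝒰 subset_rfl hc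
    obtain ⟨v, hv, hzv⟩ := hbad.2.1 z
    exact hz v hv hzv
  obtain ⟨R, hRs, hRc⟩ := exists_rightSeparated hbad hmin
  rw [hcard] at hRc
  -- a countable subfamily covering a small set
  have hsmall : ∀ (R' : Set Z), RightSeparated R' → ∀ A : Set Z, #A ≤ #R' →
      ∃ 𝒱 : Set (Set Z), 𝒱 ⊆ 𝒰 ∧ 𝒱.Countable ∧ ∀ z ∈ A, ∃ v ∈ 𝒱, z ∈ v := by
    intro R' hR' A hA
    have hL := hP R' A hR' hA
    obtain ⟨t, htc, ht⟩ := hL.elim_countable_subcover (fun v : 𝒰 => (v : Set Z))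
      (fun v => hbad.1 v v.2) (fun z _ => by
        obtain ⟨v, hv, hz⟩ := hbad.2.1 z
        exact mem_iUnion.2 ⟨⟨v, hv⟩, hz⟩)
    refine ⟨(fun v : 𝒰 => (v : Set Z)) '' t, ?_, htc.image _, ?_⟩
    · rintro _ ⟨v, -, rfl⟩
      exact v.2
    · intro z hz
      obtain ⟨v, hv, hzv⟩ := mem_iUnion₂.1 (ht (subset_closure hz))
      exact ⟨v, ⟨v, hv, rfl⟩, hzv⟩
  -- the cofinality is countable
  have hcof : κ.ord.cof = ℵ₀ := by
    by_contra hne
    have hlim : ℵ₀ ≤ κ.ord.cof := by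
      rw [aleph0_le_cof_iff, one_lt_cof_iff]
      exact isSuccLimit_ord hunc.le
    have hgt : ℵ₀ < κ.ord.cof := lt_of_le_of_ne hlim (Ne.symm hne)
    -- enumerate the cover
    have hmk : #κ.ord.ToType = #𝒰 := by
      rw [hcard]
      simp
    obtain ⟨f⟩ := Cardinal.eq.1 hmk
    obtain ⟨T, hT, hTc⟩ := Order.exists_cof_eq κ.ord.ToType
    rw [cof_toType] at hTc
    -- initial pieces do not cover
    have hpiece : ∀ t : κ.ord.ToType, ∃ z : Z, ∀ a < t, z ∉ (f a : Set Z) := by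
      intro t
      by_contra hcon
      push Not at hcon
      have hb : BadCover ((fun a => (f a : Set Z)) '' Iio t) := by
        apply hbad.subset
        · rintro _ ⟨a, -, rfl⟩
          exact (f a).2
        · intro z
          obtain ⟨a, ha, hz⟩ := hcon z
          exact ⟨f a, ⟨a, ha, rfl⟩, hz⟩
      have h1 := (hmin _ hb).trans mk_image_le
      rw [hcard] at h1
      have h2 : #(Iio t) < #κ.ord.ToType := mk_Iio_lt t (by simp)
      rw [hmk, hcard] at h2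
      exact absurd h2 (not_lt.2 h1)
    choose z hz using hpiece
    obtain ⟨𝒱, h𝒱, h𝒱c, h𝒱A⟩ := hsmall R hRs (z '' T) (by
      refine mk_image_le.trans ?_
      rw [hTc, hRc]
      exact cof_ord_le κ)
    -- the countable index set is bounded
    let c : Set κ.ord.ToType := {a | (f a : Set Z) ∈ 𝒱}
    have hcc : c.Countable := by
      have : c = (fun a => (f a : Set Z)) ⁻¹' 𝒱 := rfl
      rw [this]
      apply h𝒱c.preimage_of_injOn
      intro a _ b _ hab
      exact f.injective (Subtype.ext hab)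
    have hnc : ¬ IsCofinal c := by
      intro hcof'
      have h1 := Order.cof_le hcof'
      rw [cof_toType] at h1
      have h2 : #c ≤ ℵ₀ := le_aleph0_iff_set_countable.2 hcc
      exact absurd (h1.trans h2) (not_le.2 hgt)
    have hb : ∃ b : κ.ord.ToType, ∀ a ∈ c, a < b := by
      unfold IsCofinal at hnc
      push Not at hnc
      exact hnc
    obtain ⟨b, hb⟩ := hb
    obtain ⟨t, htT, hbt⟩ := hT b
    obtain ⟨v, hv, hzv⟩ := h𝒱A (z t) ⟨t, htT, rfl⟩
    obtain ⟨a, ha⟩ := f.surjective ⟨v, h𝒱 hv⟩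
    have hac : a ∈ c := by
      change (f a : Set Z) ∈ 𝒱
      rw [ha]
      exact hv
    have hlt : a < t := (hb a hac).trans_le hbt
    apply hz t a hlt
    rw [ha]
    exact hzv
  -- apply the hypothesis
  obtain ⟨R', hR's, hor⟩ := hR κ hunc hcof ⟨R, hRs, hRc⟩
  rcases hor with ⟨A, hA, hAc⟩ | ⟨C, hCc, hCcof, hCle⟩
  · have hL := hP R' A hR's hAc
    rw [hA.closure_eq, isLindelof_univ_iff] at hL
    exact hnot hL
  · have hmk : #κ.out = #𝒰 := by
      rw [hcard]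
      simp
    obtain ⟨f⟩ := Cardinal.eq.1 hmk
    have hpt : ∀ c : C, ∃ z : Z, ∀ a ∈ (c : Set κ.out), z ∉ (f a : Set Z) := by
      intro c
      obtain ⟨z, hz⟩ := hbad.2.2 ((fun a => (f a : Set Z)) '' (c : Set κ.out))
        (by rintro _ ⟨a, -, rfl⟩; exact (f a).2) ((hCc c c.2).image _)
      exact ⟨z, fun a ha => hz _ ⟨a, ha, rfl⟩⟩
    choose z hz using hpt
    obtain ⟨𝒱, h𝒱, h𝒱c, h𝒱A⟩ := hsmall R' hR's (range z) (mk_range_le.trans hCle)
    let c : Set κ.out := {a | (f a : Set Z) ∈ 𝒱}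
    have hcc : c.Countable := by
      have : c = (fun a => (f a : Set Z)) ⁻¹' 𝒱 := rfl
      rw [this]
      apply h𝒱c.preimage_of_injOn
      intro a _ b _ hab
      exact f.injective (Subtype.ext hab)
    obtain ⟨d, hd, hcd⟩ := hCcof c hcc
    obtain ⟨v, hv, hzv⟩ := h𝒱A (z ⟨d, hd⟩) ⟨⟨d, hd⟩, rfl⟩
    obtain ⟨a, ha⟩ := f.surjective ⟨v, h𝒱 hv⟩
    have hac : a ∈ c := by
      change (f a : Set Z) ∈ 𝒱
      rw [ha]
      exact hv
    apply hz ⟨d, hd⟩ a (hcd hac)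
    rw [ha]
    exact hzv

end Pool.Agent.Lib.Helper82.CpDiscretely
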